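import Pool.Agent.helper7.EP.SpecA

/-!
# ep:FIB: the number of pairs which lead to `s`
-/

set_option autoImplicit false

open Finset PowerSeries

noncomputable section

namespace Pool.Agent.EP

theorem FIB (hMUL : MUL_stmt) : FIB_stmt := by
  classical
  intro a y s hy
  set N : ℕ := 24 * s - 1 with hN
  have hA : 0 < 2 ^ a := by positivity
  have key : ∀ x ∈ FiS a y s, ∃ j, j * x.2 = N ∧ 0 < j ∧ j < 12 * (2 ^ a) ^ 2 ∧
      x.1 ∈ MuS a j ∧ x.2 ∈ Pt a y := by
    intro x hx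
    unfold FiS at hx
    rw [mem_filter, mem_product] at hx
    obtain ⟨⟨hk, hp⟩, w, hw, hs⟩ := hx
    have hw' := hw
    unfold ws at hw'
    simp only [mem_filter, mem_range] at hw'
    have hk' := hk
    unfold Ks at hk'
    simp only [mem_filter, mem_range] at hk'
    have h1 : x.1 * 2 ^ a ≤ 12 * (2 ^ a) ^ 2 := by nlinarith
    refine ⟨x.1 * 2 ^ a - 3 * w ^ 2, by omega, by omega, ?_, ?_, hp⟩
    · have : 0 < w := by
        rcases Nat.eq_zero_or_pos w with h | h
        · exfalso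
          rw [h] at hw'
          simp at hw'
        · exact h
      have : 0 < w ^ 2 := by positivity
      omega
    · unfold MuS
      rw [mem_filter]
      exact ⟨hk, w, by omega, by omega, rfl⟩
  rcases (FiS a y s).eq_empty_or_nonempty with he | ⟨x0, hx0⟩
  · rw [he]
    simp
  obtain ⟨j0, e1, e2, e3, -, e5⟩ := key x0 hx0
  have hPt : ∀ p ∈ Pt a y, y < p ∧ p ≤ 2 * y ∧ p.Prime := by
    intro p hp
    unfold Pt at hp
    simp only [mem_filter, mem_Ioc] at hp
    exact ⟨hp.1.1, hp.1.2, hp.2.1⟩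
  have hNpos : 0 < N := by
    rw [← e1]
    exact Nat.mul_pos e2 (hPt _ e5).2.2.pos
  have hNlt : N < y ^ 3 := by
    have h1 := (hPt _ e5).2.1
    have h2 : N < 12 * (2 ^ a) ^ 2 * (2 * y) := by
      rw [← e1]
      have h3 : 0 < x0.2 := (hPt _ e5).2.2.pos
      calc j0 * x0.2 < 12 * (2 ^ a) ^ 2 * x0.2 := by
            exact Nat.mul_lt_mul_of_pos_right e3 h3
        _ ≤ _ := Nat.mul_le_mul_left _ h1
    have h4 : (5 * 2 ^ a) ^ 2 ≤ y ^ 2 := Nat.pow_le_pow_left hy 2
    have h5 : 24 * (2 ^ a) ^ 2 ≤ y ^ 2 := by nlinarith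
    calc N < 12 * (2 ^ a) ^ 2 * (2 * y) := h2
      _ = 24 * (2 ^ a) ^ 2 * y := by ring
      _ ≤ y ^ 2 * y := Nat.mul_le_mul_right _ h5
      _ = y ^ 3 := by ring
  set D : Finset ℕ := (Pt a y).filter (fun p => p ∣ N) with hD
  have hcard : #D ≤ 2 := by
    by_contra hcon
    push Not at hcon
    obtain ⟨p, hp, q, hq, r, hr, hpq, hpr, hqr⟩ := Finset.two_lt_card.1 hcon
    rw [hD, mem_filter] at hp hq hr
    obtain ⟨p1, -, p2⟩ := hPt _ hp.1
    obtain ⟨q1, -, q2⟩ := hPt _ hq.1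
    obtain ⟨r1, -, r2⟩ := hPt _ hr.1
    have c1 : Nat.Coprime p q := (Nat.coprime_primes p2 q2).2 hpq
    have c2 : Nat.Coprime p r := (Nat.coprime_primes p2 r2).2 hpr
    have c3 : Nat.Coprime q r := (Nat.coprime_primes q2 r2).2 hqr
    have d1 : p * q ∣ N := c1.mul_dvd_of_dvd_of_dvd hp.2 hq.2
    have d2 : p * q * r ∣ N := (Nat.Coprime.mul_left c2 c3).mul_dvd_of_dvd_of_dvd d1 hr.2
    have d3 := Nat.le_of_dvd hNpos d2
    have d4 : y ^ 3 ≤ p * q * r := by
      calc y ^ 3 = y * y * y := by ring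
        _ ≤ p * q * r := by gcongr
    omega
  have hsub : FiS a y s ⊆ D.biUnion (fun p => (MuS a (N / p)).image (fun k => (k, p))) := by
    intro x hx
    obtain ⟨j, f1, f2, f3, f4, f5⟩ := key x hx
    rw [mem_biUnion]
    refine ⟨x.2, ?_, ?_⟩
    · rw [hD, mem_filter]
      exact ⟨f5, Dvd.intro_left j f1⟩
    · rw [mem_image]
      refine ⟨x.1, ?_, rfl⟩
      have : N / x.2 = j := by
        rw [← f1]
        exact Nat.mul_div_cancel _ (hPt _ f5).2.2.pos
      rw [this]
      exact f4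
  calc #(FiS a y s) ≤ #(D.biUnion (fun p => (MuS a (N / p)).image (fun k => (k, p)))) :=
        card_le_card hsub
    _ ≤ #D * 8 := by
        apply card_biUnion_le_card_mul
        intro p _
        exact card_image_le.trans (hMUL a (N / p))
    _ ≤ 16 := by omega

end Pool.Agent.EP
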